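import Pool.Agent.P.MP_294ed4_gt.QTwo

open Pool.Agent.P.MP_294ed4_gt

universe u

theorem Pool.Agent.Results.MP_294ed4_gt.LindelofSigma.result
    (X : Type u) [TopologicalSpace X] [T3Space X] (hX : IsLindelofSigma X)
    (h : WeaklySigmaMetacompact (offDiagonal X)) :
    (∃ A : Set (Cp X), IsLindelofSigma A ∧
      ∀ K : Set X, IsCompact K → ∀ f : Cp X, ∃ g ∈ A, ∀ x ∈ K, g.1 x = f.1 x) ∧
    (CompactSpace X → IsLindelofSigma (Cp X)) := by
  obtain ⟨A, h1, h2⟩ := exists_lindelofSigma_subspace hX h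
  refine ⟨⟨A, h1, h2⟩, fun _ => h1.of_eq_univ (Set.eq_univ_of_forall fun f => ?_)⟩
  obtain ⟨g, hg, hgf⟩ := h2 Set.univ isCompact_univ f
  rwa [← Subtype.ext (funext fun x => hgf x (Set.mem_univ x))]
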