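import Pool.Agent.P.MP_294ed4_gt.K76Gul
import Pool.Agent.P.MP_294ed4_gt.K76Her

open Cardinal Pool.Agent.K76

universe u

namespace Pool.Agent.Results.MP_294ed4_gt.Nagami

theorem result (X : Type u) [TopologicalSpace X] [CompactSpace X] [T2Space X]
    (k : Cardinal.{u}) (hk : ℵ₀ ≤ k) :
    List.TFAE [NagamiLE k (Cp X),
      ∀ Z : Set (X × X), WeaklyMetacompact k Z,
      WeaklyMetacompact k {p : X × X // p.1 ≠ p.2}] := by
  tfae_have 1 → 2 := fun h => ((sep_of_nagami hk h).prod hk).hereditary hk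
  tfae_have 2 → 3 := fun h => h {p | p.1 ≠ p.2}
  tfae_have 3 → 1 := fun h => (sep_of_offdiag hk h).nagami hk
  tfae_finish

end Pool.Agent.Results.MP_294ed4_gt.Nagami
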