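import Pool.Agent.P.MP_294ed4_gt.QOne

open Pool.Agent.P.MP_294ed4_gt

universe u

theorem Pool.Agent.Results.MP_294ed4_gt.SigmaSpaces.result
    (X : Type u) [TopologicalSpace X] [T2Space X] (hX : IsSigmaSpace X)
    (h : WeaklySigmaMetacompact (offDiagonal X)) :
    HereditarilyWeaklySigmaMetacompact (X × X) ∧ HereditarilyWeaklySigmaMetacompact (ℕ → X) := by
  obtain ⟨S, N, G, hN⟩ := exists_expNet hX h
  exact ⟨hN.prod.hereditarily, hN.pi.hereditarily⟩
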